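import Pool.Agent.Helper69.SW.St

set_option autoImplicit false

open scoped BigOperators ENNReal Topology
open Pool.LE Pool.NL Pool.CL Pool.CB Filter

namespace Pool.SW

theorem hTS (hGS : StGS) : StTS := by
  intro d n L c hd hn hc
  obtain ⟨h1, _, h3, h4, h5⟩ := hGS d hd L
  have hn0 : (0 : ℝ) < n := by exact_mod_cast hn
  have hcn : 0 < c / (n : ℝ) ^ 2 := by positivity
  refine ⟨?_, ?_, ?_, ?_, ?_, ?_⟩
  · intro f g hfg x
    unfold TS ap
    apply mul_le_mul_of_nonneg_left _ hcn.le
    apply Finset.sum_le_sum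
    intro y hy
    exact mul_le_mul_of_nonneg_left (hfg y hy) (h1 x y)
  · intro f hf x
    unfold TS ap
    apply mul_nonneg hcn.le
    apply Finset.sum_nonneg
    intro y hy
    exact mul_nonneg (h1 x y) (hf y hy)
  · intro f x hx
    unfold TS ap
    rw [Finset.sum_eq_zero, mul_zero]
    intro y _
    rw [h3 x y (Or.inl hx), zero_mul]
  · intro a b f g x
    unfold TS ap
    rw [Finset.mul_sum, Finset.mul_sum, Finset.mul_sum, Finset.mul_sum, Finset.mul_sum,
      ← Finset.sum_add_distrib]
    apply Finset.sum_congr rfl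
    intro y _
    ring
  · intro f x hx
    unfold AL TS
    rw [← Finset.mul_sum, ← h4 f x hx]
    ring
  · intro w f hw hf x hx
    have h6 := h5 w (fun y => c / (n : ℝ) ^ 2 * f y) hw hf x hx
    have h7 : ap L (GS L) (fun y => c / (n : ℝ) ^ 2 * f y) x = TS L n c f x := by
      unfold TS ap
      rw [Finset.mul_sum]
      apply Finset.sum_congr rfl
      intro y _
      ring
    rw [← h7]
    exact h6

end Pool.SW
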