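import Pool.Agent.Helper69.SW.St

set_option autoImplicit false

open scoped BigOperators ENNReal Topology
open Pool.LE Pool.NL Pool.CL Pool.CB Filter

namespace Pool.SW

namespace UpM

variable {d : ℕ}

theorem TS_mul (L : Finset (Zd d)) (n : ℕ) (c s : ℝ) (g : Zd d → ℝ) (x : Zd d) :
    TS L n c (fun y => s * g y) x = s * TS L n c g x := by
  unfold TS ap
  rw [Finset.mul_sum, Finset.mul_sum, Finset.mul_sum]
  apply Finset.sum_congr rfl
  intro v _
  ring

theorem TS_sum (L : Finset (Zd d)) (n : ℕ) (c : ℝ) (s : Finset ℕ) (h : ℕ → Zd d → ℝ)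
    (x : Zd d) :
    TS L n c (fun y => ∑ r ∈ s, h r y) x = ∑ r ∈ s, TS L n c (h r) x := by
  unfold TS ap
  rw [← Finset.mul_sum]
  apply congrArg
  rw [Finset.sum_comm]
  apply Finset.sum_congr rfl
  intro v _
  rw [Finset.mul_sum]

/-- the coefficients of the partial sums -/
noncomputable def gg (T : (Zd d → ℝ) → Zd d → ℝ) (V : ℝ) (f : Zd d → ℝ) (r : ℕ) (x : Zd d) : ℝ :=
  co T V f r x / ((r : ℝ) + 1)

theorem co_gg (T : (Zd d → ℝ) → Zd d → ℝ) (V : ℝ) (f : Zd d → ℝ) (r : ℕ) (x : Zd d) :
    co T V f r x = ((r : ℝ) + 1) * gg T V f r x := by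
  unfold gg
  have h : ((r : ℝ) + 1) ≠ 0 := by positivity
  field_simp

/-- symmetrisation -/
theorem symm_sum (g : ℕ → ℝ) (r : ℕ) :
    ∑ i ∈ Finset.range (r + 1), ((i : ℝ) + 1) * g i * g (r - i) =
      ((r : ℝ) + 2) / 2 * ∑ i ∈ Finset.range (r + 1), g i * g (r - i) := by
  have h1 := Finset.sum_range_reflect (fun i => ((i : ℝ) + 1) * g i * g (r - i)) (r + 1)
  have h2 : ∑ j ∈ Finset.range (r + 1), (((r + 1 - 1 - j : ℕ) : ℝ) + 1) * g (r + 1 - 1 - j) *
      g (r - (r + 1 - 1 - j)) =
      ∑ j ∈ Finset.range (r + 1), ((r : ℝ) - j + 1) * (g j * g (r - j)) := by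
    apply Finset.sum_congr rfl
    intro j hj
    have hj' : j ≤ r := Nat.lt_succ_iff.1 (Finset.mem_range.1 hj)
    have e1 : r + 1 - 1 - j = r - j := by omega
    have e2 : r - (r - j) = j := by omega
    rw [e1, e2, Nat.cast_sub hj']
    ring
  rw [h2] at h1
  have h3 : ∑ j ∈ Finset.range (r + 1), ((r : ℝ) - j + 1) * (g j * g (r - j)) +
      ∑ i ∈ Finset.range (r + 1), ((i : ℝ) + 1) * g i * g (r - i) =
      ((r : ℝ) + 2) * ∑ i ∈ Finset.range (r + 1), g i * g (r - i) := by
    rw [← Finset.sum_add_distrib, Finset.mul_sum]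
    apply Finset.sum_congr rfl
    intro j _
    ring
  linarith

theorem gg_rec (L : Finset (Zd d)) (n : ℕ) (c V : ℝ) (f : Zd d → ℝ) (r : ℕ) (x : Zd d) :
    gg (TS L n c) V f (r + 1) x = V / 2 * TS L n c (fun v =>
      ∑ i ∈ Finset.range (r + 1), gg (TS L n c) V f i v * gg (TS L n c) V f (r - i) v) x := by
  have h : (fun v => ∑ i : Fin (r + 1), co (TS L n c) V f i v *
      co (TS L n c) V f (r - i) v / (((r - i : ℕ) : ℝ) + 1)) =
      fun v => ((r : ℝ) + 2) / 2 * ∑ i ∈ Finset.range (r + 1),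
        gg (TS L n c) V f i v * gg (TS L n c) V f (r - i) v := by
    funext v
    rw [← symm_sum (fun i => gg (TS L n c) V f i v) r, Finset.sum_range]
    apply Finset.sum_congr rfl
    intro i _
    rw [co_gg (TS L n c) V f i v, mul_div_assoc]
    rfl
  have h1 : gg (TS L n c) V f (r + 1) x = co (TS L n c) V f (r + 1) x / ((r : ℝ) + 2) := by
    unfold gg
    push_cast
    ring
  rw [h1, co]
  beta_reduce
  rw [h, TS_mul]
  have h2 : ((r : ℝ) + 2) ≠ 0 := by positivity
  field_simp

theorem Up_eq (T : (Zd d → ℝ) → Zd d → ℝ) (V : ℝ) (f : Zd d → ℝ) (N : ℕ) (θ : ℝ) (x : Zd d) :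
    Up T V f N θ x = ∑ r ∈ Finset.range N, gg T V f r x * θ ^ (r + 1) := by
  unfold Up gg
  apply Finset.sum_congr rfl
  intro r _
  ring

/-- the triangular sums -/
theorem tri_le (a : ℕ → ℝ) (ha : ∀ i, 0 ≤ a i) (N : ℕ) :
    ∑ r ∈ Finset.range N, ∑ i ∈ Finset.range (r + 1), a i * a (r - i) ≤
      (∑ r ∈ Finset.range N, a r) ^ 2 := by
  rw [Finset.sum_range_diag_flip N (fun i j => a i * a j), pow_two, Finset.sum_mul_sum]
  apply Finset.sum_le_sum
  intro m _
  apply Finset.sum_le_sum_of_subset_of_nonneg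
  · exact Finset.range_mono (Nat.sub_le N m)
  · intro k _ _
    exact mul_nonneg (ha m) (ha k)

theorem le_tri (a : ℕ → ℝ) (ha : ∀ i, 0 ≤ a i) (N : ℕ) :
    (∑ r ∈ Finset.range N, a r) ^ 2 ≤
      ∑ r ∈ Finset.range (2 * N), ∑ i ∈ Finset.range (r + 1), a i * a (r - i) := by
  rw [Finset.sum_range_diag_flip (2 * N) (fun i j => a i * a j), pow_two, Finset.sum_mul_sum]
  calc ∑ i ∈ Finset.range N, ∑ j ∈ Finset.range N, a i * a j
      ≤ ∑ i ∈ Finset.range N, ∑ j ∈ Finset.range (2 * N - i), a i * a j := by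
        apply Finset.sum_le_sum
        intro m hm
        have hm' := Finset.mem_range.1 hm
        apply Finset.sum_le_sum_of_subset_of_nonneg
        · exact Finset.range_mono (by omega)
        · intro k _ _
          exact mul_nonneg (ha m) (ha k)
    _ ≤ ∑ i ∈ Finset.range (2 * N), ∑ j ∈ Finset.range (2 * N - i), a i * a j := by
        apply Finset.sum_le_sum_of_subset_of_nonneg
        · exact Finset.range_mono (by omega)
        · intro k _ _
          exact Finset.sum_nonneg (fun j _ => mul_nonneg (ha k) (ha j))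

theorem prod_eq (g : ℕ → ℝ) (θ : ℝ) (r : ℕ) :
    θ ^ (r + 2) * ∑ i ∈ Finset.range (r + 1), g i * g (r - i) =
      ∑ i ∈ Finset.range (r + 1), (g i * θ ^ (i + 1)) * (g (r - i) * θ ^ (r - i + 1)) := by
  rw [Finset.mul_sum]
  apply Finset.sum_congr rfl
  intro i hi
  have hi' : i ≤ r := Nat.lt_succ_iff.1 (Finset.mem_range.1 hi)
  have e : θ ^ (r + 2) = θ ^ (i + 1) * θ ^ (r - i + 1) := by
    rw [← pow_add]
    congr 1
    omega
  rw [e]
  ring

/-- the recursion for the partial sums -/
theorem Up_succ (L : Finset (Zd d)) (n : ℕ) (c V : ℝ) (f : Zd d → ℝ) (N : ℕ) (θ : ℝ)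
    (x : Zd d) :
    Up (TS L n c) V f (N + 1) θ x = θ * TS L n c f x + V / 2 * TS L n c (fun y =>
      ∑ r ∈ Finset.range N, ∑ i ∈ Finset.range (r + 1),
        (gg (TS L n c) V f i y * θ ^ (i + 1)) *
          (gg (TS L n c) V f (r - i) y * θ ^ (r - i + 1))) x := by
  rw [Up_eq, Finset.sum_range_succ', add_comm]
  have h0 : gg (TS L n c) V f 0 x * θ ^ (0 + 1) = θ * TS L n c f x := by
    unfold gg
    rw [co]
    push_cast
    ring
  rw [h0, TS_sum, Finset.mul_sum]
  apply congrArg
  apply Finset.sum_congr rfl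
  intro r _
  rw [gg_rec]
  have h1 : (fun y => ∑ i ∈ Finset.range (r + 1), (gg (TS L n c) V f i y * θ ^ (i + 1)) *
      (gg (TS L n c) V f (r - i) y * θ ^ (r - i + 1))) = fun y => θ ^ (r + 2) *
      ∑ i ∈ Finset.range (r + 1), gg (TS L n c) V f i y * gg (TS L n c) V f (r - i) y := by
    funext y
    exact (prod_eq (fun i => gg (TS L n c) V f i y) θ r).symm
  rw [h1, TS_mul]
  ring

end UpM

open UpM in
theorem hUp (hTS : StTS) : StUp := by
  intro d n L c V θ f hd hn hc hV hθ hf
  obtain ⟨t1, t2, t3, t4, _, t6⟩ := hTS d n L c hd hn hc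
  -- nonnegativity
  have hco : ∀ r x, 0 ≤ co (TS L n c) V f r x ∧ (x ∉ L → co (TS L n c) V f r x = 0) := by
    intro r
    induction r using Nat.strong_induction_on with
    | _ r ih =>
      intro x
      cases r with
      | zero =>
        rw [co]
        exact ⟨t2 f (fun y _ => hf y) x, t3 f x⟩
      | succ r =>
        rw [co]
        beta_reduce
        constructor
        · apply mul_nonneg hV.le
          apply t2
          intro y _
          apply Finset.sum_nonneg
          intro i _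
          have hi : (i : ℕ) ≤ r := Nat.lt_succ_iff.1 i.2
          apply div_nonneg
          · exact mul_nonneg (ih i (by omega) y).1 (ih (r - i) (by omega) y).1
          · positivity
        · intro hx
          rw [t3 _ x hx, mul_zero]
  have hgg : ∀ r x, 0 ≤ gg (TS L n c) V f r x := by
    intro r x
    unfold gg
    exact div_nonneg (hco r x).1 (by positivity)
  have haa : ∀ x r, 0 ≤ gg (TS L n c) V f r x * θ ^ (r + 1) := fun x r =>
    mul_nonneg (hgg r x) (by positivity)
  have hUp0 : ∀ N x, 0 ≤ Up (TS L n c) V f N θ x := by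
    intro N x
    rw [Up_eq]
    exact Finset.sum_nonneg (fun r _ => haa x r)
  have hlin : ∀ (F G : Zd d → ℝ) (x : Zd d),
      θ * TS L n c F x + V / 2 * TS L n c G x =
        TS L n c (fun y => θ * F y + V / 2 * G y) x := fun F G x => (t4 θ (V / 2) F G x).symm
  have hc3 : ∀ N x, Up (TS L n c) V f (N + 1) θ x ≤
      TS L n c (fun y => θ * f y + V / 2 * (Up (TS L n c) V f N θ y) ^ 2) x := by
    intro N x
    rw [Up_succ, hlin]
    apply t1
    intro y _
    have h1 := tri_le (fun i => gg (TS L n c) V f i y * θ ^ (i + 1)) (haa y) N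
    rw [Up_eq]
    have h2 := mul_le_mul_of_nonneg_left h1 (by positivity : 0 ≤ V / 2)
    exact add_le_add (le_refl _) h2
  refine ⟨hco, ?_, hc3, ?_, ?_⟩
  · intro N x
    refine ⟨hUp0 N x, ?_⟩
    rw [Up_eq, Up_eq, Finset.sum_range_succ]
    exact le_add_of_nonneg_right (haa x N)
  · intro N x
    rw [Up_succ, hlin]
    apply t1
    intro y _
    have h1 := le_tri (fun i => gg (TS L n c) V f i y * θ ^ (i + 1)) (haa y) N
    rw [Up_eq]
    have h2 := mul_le_mul_of_nonneg_left h1 (by positivity : 0 ≤ V / 2)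
    exact add_le_add (le_refl _) h2
  · intro W hW N
    induction N with
    | zero =>
      intro x
      rw [Up_eq, Finset.sum_range_zero]
      exact hW.1 x
    | succ N ih =>
      intro x
      by_cases hx : x ∈ L
      · refine le_trans (hc3 N x) ?_
        have h1 : TS L n c (fun y => θ * f y + V / 2 * (Up (TS L n c) V f N θ y) ^ 2) x ≤
            TS L n c (fun y => θ * f y + V / 2 * W y ^ 2) x := by
          apply t1
          intro y _
          have h2 : (Up (TS L n c) V f N θ y) ^ 2 ≤ W y ^ 2 :=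
            pow_le_pow_left₀ (hUp0 N y) (ih y) 2
          have h3 := mul_le_mul_of_nonneg_left h2 (by positivity : 0 ≤ V / 2)
          exact add_le_add (le_refl _) h3
        refine le_trans h1 ?_
        exact t6 W (fun y => θ * f y + V / 2 * W y ^ 2) (fun y _ => hW.1 y) hW.2 x hx
      · have h1 : Up (TS L n c) V f (N + 1) θ x = 0 := by
          unfold Up
          apply Finset.sum_eq_zero
          intro r _
          rw [(hco r x).2 hx, zero_mul, zero_div]
        rw [h1]
        exact hW.1 x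

end Pool.SW
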